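import Mathlib
import Pool.Agent.Lib.MP_cccab4_an.Defs
import Pool.Agent.Lib.MP_cccab4_an.Pub

set_option autoImplicit false

/-!
# MP_cccab4_an, NM: definitions (embeddings near Möbius maps at small scales)
-/

open Metric Set Filter Topology
open scoped NNReal

namespace QSCoh

variable {X : Type*}

/-- A map preserving all cross-ratios. -/
structure Mob [MetricSpace X] (f : X → X) : Prop where
  inj : Function.Injective f
  eq : ∀ a b c d, cr (f a) (f b) (f c) (f d) = cr a b c d

/-- A group of Möbius homeomorphisms which is cocompact on triples. -/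
structure MG (X : Type*) [MetricSpace X] (G : Set (X → X)) (δ : ℝ) : Prop where
  hδ : 0 < δ
  id_mem : id ∈ G
  comp : ∀ f ∈ G, ∀ g ∈ G, f ∘ g ∈ G
  inv : ∀ g ∈ G, ∃ g' ∈ G, g ∘ g' = id ∧ g' ∘ g = id
  cont : ∀ g ∈ G, Continuous g
  mob : ∀ g ∈ G, Mob g
  co : ∀ x y z : X, x ≠ y → x ≠ z → y ≠ z → ∃ h ∈ G, Sep δ (h x) (h y) (h z)

/-- The four points are distinct. -/
def Dist4 (a b c d : X) : Prop := a ≠ b ∧ a ≠ c ∧ a ≠ d ∧ b ≠ c ∧ b ≠ d ∧ c ≠ d

/-- The cross-ratio of the images under `f` of any four distinct points `a, b, c, d` of the ball of radius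
`r` about a point `x` whose image is within `r` of a point outside the image of `f` differs from
`cr a b c d` by at most `ε`, if `cr a b c d ≤ 1/ε`. -/
def SmallAt [MetricSpace X] (f : X → X) (ε r : ℝ) : Prop :=
  ∀ x y, y ∉ range f → dist (f x) y < r → ∀ a b c d, dist x a < r → dist x b < r → dist x c < r →
    dist x d < r → Dist4 a b c d → cr a b c d ≤ 1 / ε → |cr (f a) (f b) (f c) (f d) - cr a b c d| ≤ ε

end QSCoh
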