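import Pool.Agent.Lib.MP_cccab4_an.NM.N10

set_option autoImplicit false

/-!
# H1: holes of the image force distortion at their scale

`Dis f ε B`: four distinct points of `B` with `cr ≤ 1/ε` whose cross-ratio is distorted by more than `ε`.
`hole_form`: if the ball about `y` of radius `s = dist (f x) y` is disjoint from the image of `f`, `dist (f x) (f a) = s` and
`s ≤ ε * dist (f x) (f w)`, then `Dis f ε B` where `B` is the set of all `u` with
`ε * (dist x u * dist a w) ≤ dist x a * dist u w`.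
-/

open Metric Set Filter Topology
open scoped NNReal

namespace QSCoh

variable {X : Type*} [MetricSpace X]

/-- Four distinct points of `B` with cross-ratio `≤ 1/ε`, distorted by more than `ε`. -/
def Dis (f : X → X) (ε : ℝ) (B : Set X) : Prop :=
  ∃ p q r s, p ∈ B ∧ q ∈ B ∧ r ∈ B ∧ s ∈ B ∧ Dist4 p q r s ∧ cr p q r s ≤ 1 / ε ∧
    ε < |cr (f p) (f q) (f r) (f s) - cr p q r s|

/-- The points which are at distance at most `1/ε` times that of `a` from `x`, seen from `w`. -/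
def Loc (ε : ℝ) (x a w : X) : Set X := {u | ε * (dist x u * dist a w) ≤ dist x a * dist u w}

theorem loc_mem [CompactSpace X] {G : Set (X → X)} {δ : ℝ} (hG : MG X G δ) {ε : ℕ → ℝ}
    (hε0 : ∀ j, 0 < ε j) (hε : Tendsto ε atTop (𝓝 0)) {x a w : ℕ → X} {h h' : ℕ → X → X}
    (hz : ∀ j, Zm G δ (h j) (x j) (a j) (w j)) (hm : ∀ j, h' j ∈ G) (hi : ∀ j u, h' j (h j u) = u)
    {p : X} (hp : Tendsto (fun j => h j (w j)) atTop (𝓝 p)) {u : X} (hu : u ≠ p) :
    ∀ᶠ j in atTop, h' j u ∈ Loc (ε j) (x j) (a j) (w j) := by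
  set D := diam (univ : Set X) with hD
  have hle : ∀ a b : X, dist a b ≤ D := fun a b =>
    dist_le_diam_of_mem isBounded_of_compactSpace (mem_univ _) (mem_univ _)
  have hD0 : 0 ≤ D := diam_nonneg
  have hκ : 0 < dist u p / 2 := half_pos (dist_pos.2 hu)
  have hδ := hG.hδ
  have e1 : ∀ᶠ j in atTop, dist (h j (w j)) p < dist u p / 2 := (Metric.tendsto_nhds.1 hp) _ hκ
  have e2 : ∀ᶠ j in atTop, ε j * (D * D) < δ * (dist u p / 2) := by
    have : Tendsto (fun j => ε j * (D * D)) atTop (𝓝 0) := by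
      have := hε.mul_const (D * D)
      rwa [zero_mul] at this
    exact this.eventually_lt_const (mul_pos hδ hκ)
  filter_upwards [e1, e2] with j j1 j2
  have hmob := hG.mob (h' j) (hm j)
  have hcr := hmob.eq (h j (x j)) u (h j (a j)) (h j (w j))
  rw [hi, hi, hi] at hcr
  obtain ⟨s1, s2, s3⟩ := (hz j).sep
  have hw : dist u p / 2 ≤ dist u (h j (w j)) := by
    have := dist_triangle u (h j (w j)) p
    linarith
  have hxa : 0 < dist (x j) (a j) := dist_pos.2 (hz j).ne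
  have huw : 0 < dist (h' j u) (w j) := by
    refine dist_pos.2 fun e => ?_
    have e3 : h' j u = h' j (h j (w j)) := by rw [hi]; exact e
    have e4 := hmob.inj e3
    rw [← e4, dist_self] at hw
    linarith
  show ε j * (dist (x j) (h' j u) * dist (a j) (w j)) ≤ dist (x j) (a j) * dist (h' j u) (w j)
  have hpos : 0 < dist (x j) (a j) * dist (h' j u) (w j) := mul_pos hxa huw
  have hpos2 : 0 < dist (h j (x j)) (h j (a j)) * dist u (h j (w j)) :=
    mul_pos (lt_of_lt_of_le hδ s1) (lt_of_lt_of_le hκ hw)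
  have hval : cr (x j) (h' j u) (a j) (w j) ≤ 1 / ε j := by
    rw [hcr]
    unfold cr
    rw [div_le_div_iff₀ hpos2 (hε0 j)]
    have n1 : dist (h j (x j)) u * dist (h j (a j)) (h j (w j)) ≤ D * D :=
      mul_le_mul (hle _ _) (hle _ _) dist_nonneg hD0
    have n2 : δ * (dist u p / 2) ≤ dist (h j (x j)) (h j (a j)) * dist u (h j (w j)) :=
      mul_le_mul s1 hw hκ.le dist_nonneg
    have n3 := mul_le_mul_of_nonneg_right n1 (hε0 j).le
    linarith
  unfold cr at hval
  rw [div_le_div_iff₀ hpos (hε0 j)] at hval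
  linarith

theorem lim_mob2 [CompactSpace X] {G : Set (X → X)} {δ : ℝ} (hG : MG X G δ)
    {σ D₀ : ℝ} {s ε : ℕ → ℝ} (hε0 : ∀ j, 0 < ε j) (hε : Tendsto ε atTop (𝓝 0))
    {f : ℕ → X → X} {x a w y : ℕ → X} {h h' g : ℕ → X → X}
    (hB : ∀ j, BU G δ σ D₀ (s j) (f j) (x j) (a j) (w j) (y j) (h j) (h' j) (g j))
    (hsm : ∀ j, ¬ Dis (f j) (ε j) (Loc (ε j) (x j) (a j) (w j)))
    {F : X → X} (hc : Continuous F) (hi : Function.Injective F)
    (hF : ∀ u, Tendsto (fun j => g j (f j (h' j u))) atTop (𝓝 (F u))) {p : X}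
    (hp : Tendsto (fun j => h j (w j)) atTop (𝓝 p)) (hacc : ∀ e > 0, ∃ q : X, q ≠ p ∧ dist q p < e) :
    Mob F := by
  have hloc : ∀ u : X, u ≠ p → ∀ᶠ j in atTop, h' j u ∈ Loc (ε j) (x j) (a j) (w j) := fun u hu =>
    loc_mem hG hε0 hε (fun j => (hB j).zh) (fun j => (hB j).mem') (fun j => (hB j).inv2) hp hu
  refine mob_of_avoid hc hi p hacc fun a₁ b₁ c₁ d₁ hD4 hap hbp hcp hdp => ?_
  have hq : ∀ᶠ j in atTop, cr a₁ b₁ c₁ d₁ ≤ 1 / ε j := by
    have h1 : Tendsto (fun j => cr a₁ b₁ c₁ d₁ * ε j) atTop (𝓝 0) := by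
      have := hε.const_mul (cr a₁ b₁ c₁ d₁)
      rwa [mul_zero] at this
    filter_upwards [(tendsto_order.1 h1).2 1 one_pos] with j h2
    rw [le_div_iff₀ (hε0 j)]
    exact h2.le
  have hb : ∀ᶠ j in atTop,
      |cr (g j (f j (h' j a₁))) (g j (f j (h' j b₁))) (g j (f j (h' j c₁))) (g j (f j (h' j d₁))) -
        cr a₁ b₁ c₁ d₁| ≤ ε j := by
    filter_upwards [hloc a₁ hap, hloc b₁ hbp, hloc c₁ hcp, hloc d₁ hdp, hq]
      with j ha hb' hc' hd h2
    have hm := hG.mob (h' j) (hB j).mem'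
    have hg := hG.mob (g j) (hB j).zg.mem
    have h3 : |cr (f j (h' j a₁)) (f j (h' j b₁)) (f j (h' j c₁)) (f j (h' j d₁)) -
        cr (h' j a₁) (h' j b₁) (h' j c₁) (h' j d₁)| ≤ ε j := by
      by_contra hcon
      push Not at hcon
      exact hsm j ⟨h' j a₁, h' j b₁, h' j c₁, h' j d₁, ha, hb', hc', hd,
        ⟨hm.inj.ne hD4.1, hm.inj.ne hD4.2.1, hm.inj.ne hD4.2.2.1, hm.inj.ne hD4.2.2.2.1,
          hm.inj.ne hD4.2.2.2.2.1, hm.inj.ne hD4.2.2.2.2.2⟩, by rw [hm.eq]; exact h2, hcon⟩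
    rw [hm.eq] at h3
    rw [hg.eq]
    exact h3
  have hlim : Tendsto (fun j => cr (g j (f j (h' j a₁))) (g j (f j (h' j b₁)))
      (g j (f j (h' j c₁))) (g j (f j (h' j d₁)))) atTop (𝓝 (cr a₁ b₁ c₁ d₁)) := by
    rw [tendsto_iff_dist_tendsto_zero]
    refine squeeze_zero' (Eventually.of_forall fun _ => dist_nonneg) ?_ hε
    filter_upwards [hb] with j hj
    rw [Real.dist_eq]
    exact hj
  exact tendsto_nhds_unique
    (cr_tendsto (hF a₁) (hF b₁) (hF c₁) (hF d₁) (hi.ne hD4.2.1) (hi.ne hD4.2.2.2.2.1)) hlim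

theorem hole_form [CompactSpace X] [PreconnectedSpace X] (hF : SemigroupForm X) {G : Set (X → X)} {δ : ℝ}
    (hG : MG X G δ) {θ : ℝ → ℝ} (hθ : Gauge θ) :
    ∃ ε > 0, ∀ f : X → X, Continuous f → QM θ f → ∀ x a w y : X, y ∉ range f →
      (∀ u, dist (f x) y ≤ dist y (f u)) → dist (f x) (f a) = dist (f x) y →
      dist (f x) y ≤ ε * dist (f x) (f w) → Dis f ε (Loc ε x a w) := by
  by_contra hcon
  push Not at hcon
  have K := mob_sg hG
  obtain ⟨σ, hσ, τ, hτ, hhole⟩ := hole K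
  have hm0 : 0 < min σ 1 := lt_min hσ one_pos
  have hε : ∀ j : ℕ, 0 < min σ 1 * (1 / ((j : ℝ) + 1)) / 2 := fun j => by positivity
  set ε : ℕ → ℝ := fun j => min σ 1 * (1 / ((j : ℝ) + 1)) / 2 with hεd
  have hε1 : ∀ j, ε j ≤ min σ 1 / 2 := by
    intro j
    have h1 : (1 : ℝ) / ((j : ℝ) + 1) ≤ 1 := by
      rw [div_le_one (by positivity)]
      have : (0 : ℝ) ≤ j := Nat.cast_nonneg j
      linarith
    have h2 := mul_le_mul_of_nonneg_left h1 hm0.le
    simp only [hεd]
    linarith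
  have hεlim : Tendsto ε atTop (𝓝 0) := by
    have h1 : Tendsto (fun j : ℕ => (1 : ℝ) / ((j : ℝ) + 1)) atTop (𝓝 0) :=
      tendsto_one_div_add_atTop_nhds_zero_nat
    have h2 := (h1.const_mul (min σ 1)).div_const 2
    rw [mul_zero, zero_div] at h2
    exact h2
  choose f hfc hfq x a w y hy hlow hfa hfw hnd using fun j : ℕ => hcon (ε j) (hε j)
  have hpos : ∀ j, 0 < dist (f j (x j)) (y j) := fun j => by
    refine dist_pos.2 fun e => hy j ⟨x j, e⟩
  have hlt : ∀ j, dist (f j (x j)) (y j) < dist (f j (x j)) (f j (w j)) := by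
    intro j
    have h1 := hfw j
    have h2 : ε j ≤ 1 / 2 := (hε1 j).trans (by
      have := min_le_right σ (1 : ℝ)
      linarith)
    have h3 := mul_le_mul_of_nonneg_right h2 (dist_nonneg (x := f j (x j)) (y := f j (w j)))
    have h4 := hpos j
    linarith
  have nxa : ∀ j, x j ≠ a j := fun j e => by
    have h1 := hfa j
    rw [← e, dist_self] at h1
    have := hpos j
    linarith
  have nxw : ∀ j, x j ≠ w j := fun j e => by
    have h1 := hlt j
    rw [← e, dist_self] at h1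
    have := hpos j
    linarith
  have naw : ∀ j, a j ≠ w j := fun j e => by
    have h1 := hlt j
    rw [← e, hfa j] at h1
    linarith
  have hinj := fun j => (hfq j).inj
  choose h hhG hsep using fun j => hG.co (x j) (a j) (w j) (nxa j) (nxw j) (naw j)
  choose g hgG hgsep using fun j => hG.co (f j (x j)) (f j (a j)) (f j (w j)) ((hinj j).ne (nxa j))
    ((hinj j).ne (nxw j)) ((hinj j).ne (naw j))
  choose h' hh' e1 e2 using fun j => hG.inv (h j) (hhG j)
  have hB : ∀ j, BU G δ σ 0 (dist (x j) (a j) + dist (f j (x j)) (y j) + 1) (f j) (x j) (a j) (w j) (y j)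
      (h j) (h' j) (g j) := by
    intro j
    have n1 : 0 ≤ dist (x j) (a j) := dist_nonneg
    have n2 := hpos j
    refine ⟨⟨hhG j, nxa j, hsep j⟩, ⟨hgG j, (hinj j).ne (nxa j), hgsep j⟩, hh' j,
      fun z => congrFun (e1 j) z, fun z => congrFun (e2 j) z, by linarith, dist_nonneg, hy j,
      by linarith, ?_, (hfa j).symm, fun z => by rw [hfa j]; exact hlow j z⟩
    rw [hfa j]
    refine (hfw j).trans (mul_le_mul_of_nonneg_right ?_ dist_nonneg)
    have h1 := hε1 j
    have h2 := min_le_left σ (1 : ℝ)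
    linarith
  obtain ⟨φ, F, y', p, hφ, hFc, hFi, hFl, hyl, hpl⟩ := comp_lim hG hθ hfq hB
  have hφt : Tendsto φ atTop atTop := hφ.tendsto_atTop
  have hMob : Mob F :=
    lim_mob2 hG (ε := fun j => ε (φ j)) (fun j => hε (φ j)) (hεlim.comp hφt)
      (f := fun j => f (φ j)) (fun j => hB (φ j)) (fun j => hnd (φ j)) hFc hFi hFl hpl
      (accum (nxa 0) p)
  obtain ⟨u, hu⟩ := mob_surj hF hG hFc hMob y'
  have hge : ∀ j, τ ≤ dist (g j (y j)) (g j (f j (h' j u))) := by
    intro j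
    refine hhole (range (f j)) (f j (x j)) (f j (a j)) (f j (w j)) (y j) (g j) (hB j).zg (hB j).sc
      (hB j).eqd ?_ _ (mem_range_self _)
    rintro _ ⟨v, rfl⟩
    exact (hB j).low v
  have hlim : Tendsto (fun j => dist (g (φ j) (y (φ j))) (g (φ j) (f (φ j) (h' (φ j) u)))) atTop
      (𝓝 (dist y' (F u))) := hyl.dist (hFl u)
  have := ge_of_tendsto' hlim (fun j => hge (φ j))
  rw [hu, dist_self] at this
  linarith

end QSCoh
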