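import Pool.Agent.Lib.MP_cccab4_an.NM.H1

set_option autoImplicit false

/-!
# H2: holes near a given point of the frontier of the image
-/

open Metric Set Filter Topology
open scoped NNReal

namespace QSCoh

variable {X : Type*} [MetricSpace X]

theorem front_loc [CompactSpace X] [PreconnectedSpace X] {f : X → X} (hc : Continuous f)
    (hi : Function.Injective f) {z : X} (hz : f z ∉ interior (range f)) {ε r : ℝ} (hε : 0 < ε)
    (hr : 0 < r) : ∃ x a w y : X, y ∉ range f ∧ (∀ u, dist (f x) y ≤ dist y (f u)) ∧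
      dist (f x) (f a) = dist (f x) y ∧ dist (f x) y ≤ ε * dist (f x) (f w) ∧
      Loc ε x a w ⊆ ball z r := by
  have hcomp : IsCompact (range f) := isCompact_range hc
  have hne : (range f).Nonempty := ⟨f z, z, rfl⟩
  -- a point outside the image
  have hnear : ∀ ρ : ℝ, 0 < ρ → ∃ y, y ∉ range f ∧ dist y (f z) < ρ := by
    intro ρ hρ
    by_contra hcon
    push Not at hcon
    apply hz
    rw [mem_interior_iff_mem_nhds, Metric.mem_nhds_iff]
    refine ⟨ρ, hρ, fun v hv => ?_⟩
    by_contra hv2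
    exact absurd (hcon v hv2) (not_le.2 (mem_ball.1 hv))
  obtain ⟨y₁, hy₁, -⟩ := hnear 1 one_pos
  have huv : f y₁ ≠ y₁ := fun e => hy₁ ⟨y₁, e⟩
  set D := diam (univ : Set X) with hD
  have hle : ∀ a b : X, dist a b ≤ D := fun a b =>
    dist_le_diam_of_mem isBounded_of_compactSpace (mem_univ _) (mem_univ _)
  have hDpos : 0 < D := lt_of_lt_of_le (dist_pos.2 huv) (hle _ _)
  set D₀ : ℝ := dist (f y₁) y₁ / 2 with hD₀
  have hD0 : 0 < D₀ := half_pos (dist_pos.2 huv)
  have hfar : ∀ x : X, ∃ w, D₀ ≤ dist x w := by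
    intro x
    by_contra hcon
    push Not at hcon
    have e1 := dist_triangle_left (f y₁) y₁ x
    have e2 := hcon (f y₁)
    have e3 := hcon y₁
    have e4 : dist (f y₁) y₁ = 2 * D₀ := by rw [hD₀]; ring
    linarith
  obtain ⟨m₁, hm₁, hl₁⟩ := lower_modulus hc hi hD0
  -- the scale in the domain
  have ht : 0 < min (r / 2) (min (D₀ / 2) (r * (ε * D₀) / (4 * (2 * D)))) := by positivity
  set t := min (r / 2) (min (D₀ / 2) (r * (ε * D₀) / (4 * (2 * D)))) with htd
  have ht1 : t ≤ r / 2 := min_le_left _ _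
  have ht2 : t ≤ D₀ / 2 := (min_le_right _ _).trans (min_le_left _ _)
  have ht3 : t ≤ r * (ε * D₀) / (4 * (2 * D)) := (min_le_right _ _).trans (min_le_right _ _)
  obtain ⟨m₂, hm₂, hl₂⟩ := lower_modulus hc hi ht
  have hρ : 0 < min (m₂ / 2) (min (ε * m₁) m₁) :=
    lt_min (half_pos hm₂) (lt_min (mul_pos hε hm₁) hm₁)
  obtain ⟨y, hy, hyz⟩ := hnear _ hρ
  have hy1 : dist y (f z) < m₂ / 2 := hyz.trans_le (min_le_left _ _)
  have hy2 : dist y (f z) < ε * m₁ := hyz.trans_le ((min_le_right _ _).trans (min_le_left _ _))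
  have hy3 : dist y (f z) < m₁ := hyz.trans_le ((min_le_right _ _).trans (min_le_right _ _))
  obtain ⟨_, ⟨x, rfl⟩, hx⟩ := hcomp.exists_infDist_eq_dist hne y
  have hlow : ∀ u, dist (f x) y ≤ dist y (f u) := by
    intro u
    rw [dist_comm, ← hx]
    exact infDist_le_dist_of_mem ⟨u, rfl⟩
  have hxz : dist (f x) y ≤ dist y (f z) := hlow z
  obtain ⟨w, hw⟩ := hfar x
  have hw' : m₁ ≤ dist (f x) (f w) := hl₁ x w hw
  obtain ⟨a, ha⟩ : dist (f x) y ∈ range fun v => dist (f x) (f v) := by
    refine mem_range_of_exists_le_of_exists_ge (continuous_const.dist hc) ⟨x, ?_⟩ ⟨w, ?_⟩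
    · rw [dist_self]
      exact dist_nonneg
    · linarith
  have ha' : dist (f x) (f a) = dist (f x) y := ha
  have hxa : dist x a < t := by
    by_contra hcon
    push Not at hcon
    have e1 := hl₂ x a hcon
    linarith
  have hzx : dist z x < t := by
    by_contra hcon
    push Not at hcon
    have e1 := hl₂ z x hcon
    have e2 := dist_triangle_left (f z) (f x) y
    have e3 : dist y (f x) = dist (f x) y := dist_comm _ _
    linarith
  refine ⟨x, a, w, y, hy, hlow, ha', ?_, ?_⟩
  · exact (hxz.trans hy2.le).trans (mul_le_mul_of_nonneg_left hw' hε.le)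
  · intro u hu
    have hu' : ε * (dist x u * dist a w) ≤ dist x a * dist u w := hu
    have haw : D₀ / 2 ≤ dist a w := by
      have := dist_triangle x a w
      linarith
    have h1 : dist x a * dist u w ≤ t * D :=
      mul_le_mul hxa.le (hle _ _) dist_nonneg ht.le
    have h2 : ε * (dist x u * (D₀ / 2)) ≤ ε * (dist x u * dist a w) :=
      mul_le_mul_of_nonneg_left (mul_le_mul_of_nonneg_left haw dist_nonneg) hε.le
    have h3 : t * D ≤ r * (ε * D₀) / 8 := by
      have h4 := mul_le_mul_of_nonneg_right ht3 hDpos.le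
      have h5 : r * (ε * D₀) / (4 * (2 * D)) * D = r * (ε * D₀) / 8 := by
        field_simp
        ring
      linarith
    have h6 : ε * D₀ * dist x u ≤ ε * D₀ * (r / 4) := by
      have h7 : ε * (dist x u * (D₀ / 2)) = ε * D₀ * dist x u / 2 := by ring
      have h8 : r * (ε * D₀) / 8 = ε * D₀ * (r / 4) / 2 := by ring
      linarith
    have h9 : dist x u ≤ r / 4 := le_of_mul_le_mul_left h6 (mul_pos hε hD0)
    rw [mem_ball, dist_comm]
    have h10 := dist_triangle z x u
    linarith

end QSCoh
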