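import Pool.Agent.Lib.MP_cccab4_an.NM.Defs
import Pool.Agent.Lib.MP_cccab4_an.A08

set_option autoImplicit false

/-!
# N5 (80 lines). The zoom lemmas are in A08 (they want a Borel structure: `letI : MeasurableSpace X := borel X`, `haveI : BorelSpace X := ⟨rfl⟩`).

`hole`: `zoom1` (M = 1): `σ₁, c₁`; `zoom2` (κ = c₁/2): `σ₂, M₂`; `zoom4` (M = max 1 M₂, ε = 1/2): `σ₄, τ₄`; take
`σ = min σ₁ (min σ₂ σ₄)`, `τ = min (c₁/2) τ₄`. Let `w ∈ A`, suppose `dist (g y) (g w) < τ`. `zoom1` with `u = y` (`dist x y = dist x a`):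
`c₁ ≤ dist (g y) (g z)`, so `c₁/2 ≤ dist (g w) (g z)`; `zoom2`: `dist x w ≤ M₂ dist x a`; `zoom4` with `u = y`, `v = w`:
`dist y w ≤ dist x a / 2`, but `dist x a ≤ dist y w` and `0 < dist x a` (`Zm.ne`): contradiction. (`σ * dist x z` is monotone in σ.)

`dom`: `κ = dist u p / 2`; `zoom2` gives `σ, M`. Eventually `dist (x j) (a j) ≤ σ * D₀ ≤ σ * dist (x j) (w j)` and
`dist (h j (w j)) p < κ`, so `κ ≤ dist u (h j (w j)) = dist (h j (h' j u)) (h j (w j))`; `zoom2`.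
-/

open Metric Set Filter Topology
open scoped NNReal

namespace QSCoh

variable {X : Type*} [MetricSpace X]

theorem hole [CompactSpace X] {S G : Set (X → X)} {δ : ℝ} {θ₀ : ℝ → ℝ} (K : Sg X S G δ θ₀) :
    ∃ σ > 0, ∃ τ > 0, ∀ (A : Set X) (x a z y : X) (g : X → X), Zm G δ g x a z →
      dist x a ≤ σ * dist x z → dist x y = dist x a → (∀ w ∈ A, dist x a ≤ dist y w) →
      ∀ w ∈ A, τ ≤ dist (g y) (g w) := by
  letI : MeasurableSpace X := borel X
  haveI : BorelSpace X := ⟨rfl⟩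
  obtain ⟨σ₁, hσ₁, c₁, hc₁, h1⟩ := zoom1 K one_pos
  obtain ⟨σ₂, hσ₂, M₂, hM₂, h2⟩ := zoom2 K (half_pos hc₁)
  obtain ⟨σ₄, hσ₄, τ₄, hτ₄, h4⟩ := zoom4 K (M := max 1 M₂) (lt_max_of_lt_left one_pos) (ε := 1 / 2) (by norm_num)
  refine ⟨min σ₁ (min σ₂ σ₄), lt_min hσ₁ (lt_min hσ₂ hσ₄), min (c₁ / 2) τ₄, lt_min (half_pos hc₁) hτ₄,
    fun A x a z y g hg hs hy hA w hw => ?_⟩
  have m1 : dist x a ≤ σ₁ * dist x z := hs.trans (mul_le_mul_of_nonneg_right (min_le_left _ _) dist_nonneg)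
  have m2 : dist x a ≤ σ₂ * dist x z :=
    hs.trans (mul_le_mul_of_nonneg_right ((min_le_right _ _).trans (min_le_left _ _)) dist_nonneg)
  have m4 : dist x a ≤ σ₄ * dist x z :=
    hs.trans (mul_le_mul_of_nonneg_right ((min_le_right _ _).trans (min_le_right _ _)) dist_nonneg)
  by_contra hcon
  push Not at hcon
  have c1 : dist (g y) (g w) < c₁ / 2 := hcon.trans_le (min_le_left _ _)
  have c2 : dist (g y) (g w) < τ₄ := hcon.trans_le (min_le_right _ _)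
  have hyz : c₁ ≤ dist (g y) (g z) := h1 g x a z hg m1 y (by rw [hy, one_mul])
  have hwz : c₁ / 2 ≤ dist (g w) (g z) := by
    have := dist_triangle (g y) (g w) (g z)
    linarith
  have hxw : dist x w ≤ M₂ * dist x a := h2 g x a z hg m2 w hwz
  have hpos : 0 < dist x a := dist_pos.2 hg.ne
  have hxy : dist x y ≤ max 1 M₂ * dist x a := by
    rw [hy]
    calc dist x a = 1 * dist x a := (one_mul _).symm
      _ ≤ max 1 M₂ * dist x a := mul_le_mul_of_nonneg_right (le_max_left _ _) hpos.le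
  have hyw : dist y w ≤ 1 / 2 * dist x a := h4 g x a z hg m4 y w hxy
    (hxw.trans (mul_le_mul_of_nonneg_right (le_max_right _ _) hpos.le)) c2.le
  have := hA w hw
  linarith

theorem dom [CompactSpace X] {S G : Set (X → X)} {δ : ℝ} {θ₀ : ℝ → ℝ} (K : Sg X S G δ θ₀)
    {x a w : ℕ → X} {h h' : ℕ → X → X} {D₀ : ℝ} (hD : 0 < D₀) (hz : ∀ j, Zm G δ (h j) (x j) (a j) (w j))
    (hw : ∀ j, D₀ ≤ dist (x j) (w j)) (ht : Tendsto (fun j => dist (x j) (a j)) atTop (𝓝 0))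
    (hi : ∀ j u, h j (h' j u) = u) {p : X} (hp : Tendsto (fun j => h j (w j)) atTop (𝓝 p)) {u : X}
    (hu : u ≠ p) : ∃ M > 0, ∀ᶠ j in atTop, dist (x j) (h' j u) ≤ M * dist (x j) (a j) := by
  letI : MeasurableSpace X := borel X
  haveI : BorelSpace X := ⟨rfl⟩
  have hκ : 0 < dist u p / 2 := half_pos (dist_pos.2 hu)
  obtain ⟨σ, hσ, M, hM, h2⟩ := zoom2 K hκ
  refine ⟨M, hM, ?_⟩
  have e1 : ∀ᶠ j in atTop, dist (x j) (a j) < σ * D₀ := ht.eventually_lt_const (mul_pos hσ hD)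
  have e2 : ∀ᶠ j in atTop, dist (h j (w j)) p < dist u p / 2 := (Metric.tendsto_nhds.1 hp) _ hκ
  filter_upwards [e1, e2] with j j1 j2
  refine h2 (h j) (x j) (a j) (w j) (hz j) (j1.le.trans (mul_le_mul_of_nonneg_left (hw j) hσ.le)) _ ?_
  rw [hi]
  have := dist_triangle u (h j (w j)) p
  linarith

end QSCoh
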