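import Pool.Agent.Lib.MP_cccab4_an.NM.N4
import Pool.Agent.Lib.MP_cccab4_an.A04

set_option autoImplicit false

/-!
# N7 (100 lines)

`D₀ ≤ dist u v / 2` for two points `u, v` (`hD`), so for every `x` there is `w ∈ {u, v}` with `D₀ ≤ dist x w`.
`lower_modulus` (A04) for `f`: `m₁ > 0` for `D₀` (`D₀ ≤ dist x w → m₁ ≤ dist (f x) (f w)`), `m₂ > 0` for `s₁' = min s₁ (D₀/2)`.
`front` (N4) with `s₀ = min s₁ (min m₂ (σ * m₁))`: `x, a, y, s`. `dist (f x) (f a) = s < m₂`, so `dist x a < s₁' ≤ s₁`; `x ≠ a` since `s > 0`;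
`w` with `D₀ ≤ dist x w`: `x ≠ w`, `a ≠ w` (`dist x a < D₀/2`). `f` is injective, so also `f x, f a, f w` are distinct. `hG.co` gives
`h`, `g`; `h'` from `hG.inv`. `dist (f x) (f a) = s ≤ σ * m₁ ≤ σ * dist (f x) (f w)`.
-/

open Metric Set Filter Topology
open scoped NNReal

namespace QSCoh

variable {X : Type*} [MetricSpace X]

/-- The data of the blow-up of one map. -/
structure BU (G : Set (X → X)) (δ σ D₀ s₁ : ℝ) (f : X → X) (x a w y : X) (h h' g : X → X) : Prop where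
  zh : Zm G δ h x a w
  zg : Zm G δ g (f x) (f a) (f w)
  mem' : h' ∈ G
  inv1 : ∀ u, h (h' u) = u
  inv2 : ∀ u, h' (h u) = u
  small : dist x a < s₁
  far : D₀ ≤ dist x w
  out : y ∉ range f
  near : dist (f x) y < s₁
  sc : dist (f x) (f a) ≤ σ * dist (f x) (f w)
  eqd : dist (f x) y = dist (f x) (f a)
  low : ∀ u, dist (f x) (f a) ≤ dist y (f u)

theorem blow [CompactSpace X] [PreconnectedSpace X] {G : Set (X → X)} {δ : ℝ} (hG : MG X G δ) {D₀ : ℝ}
    (hD0 : 0 < D₀) (hD : ∃ u v : X, 2 * D₀ ≤ dist u v) {σ : ℝ} (hσ : 0 < σ) {f : X → X} (hc : Continuous f)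
    (hi : Function.Injective f) (hs : ¬ Function.Surjective f) {s₁ : ℝ} (h1 : 0 < s₁) :
    ∃ (x a w y : X) (h h' g : X → X), BU G δ σ D₀ s₁ f x a w y h h' g := by
  obtain ⟨u, v, huv⟩ := hD
  obtain ⟨m₁, hm₁, hl₁⟩ := lower_modulus hc hi hD0
  have hs' : 0 < min s₁ (D₀ / 2) := lt_min h1 (by linarith)
  obtain ⟨m₂, hm₂, hl₂⟩ := lower_modulus hc hi hs'
  have hs0 : 0 < min s₁ (min m₂ (σ * m₁)) := lt_min h1 (lt_min hm₂ (mul_pos hσ hm₁))
  obtain ⟨x, a, y, s, hspos, hss, hy, hlow, hxy, hxa⟩ := front hc hi hs hs0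
  have hsa : s < s₁ := lt_of_lt_of_le hss (min_le_left _ _)
  have hsb : s < m₂ := lt_of_lt_of_le hss (le_trans (min_le_right _ _) (min_le_left _ _))
  have hsc : s < σ * m₁ := lt_of_lt_of_le hss (le_trans (min_le_right _ _) (min_le_right _ _))
  obtain ⟨w, hw⟩ : ∃ w, D₀ ≤ dist x w := by
    by_contra hcon
    push Not at hcon
    have e1 := dist_triangle_left u v x
    have e2 := hcon u
    have e3 := hcon v
    linarith
  have hxa' : dist x a < min s₁ (D₀ / 2) := by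
    by_contra hcon
    push Not at hcon
    have e1 := hl₂ x a hcon
    rw [hxa] at e1
    linarith
  have hxa1 : dist x a < s₁ := lt_of_lt_of_le hxa' (min_le_left _ _)
  have hxa2 : dist x a < D₀ / 2 := lt_of_lt_of_le hxa' (min_le_right _ _)
  have ne : x ≠ a := by
    rintro rfl
    rw [dist_self] at hxa
    linarith
  have hxw : x ≠ w := by
    rintro rfl
    rw [dist_self] at hw
    linarith
  have haw : a ≠ w := by
    rintro rfl
    linarith
  obtain ⟨h, hhG, hsep⟩ := hG.co x a w ne hxw haw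
  obtain ⟨g, hgG, hgsep⟩ := hG.co (f x) (f a) (f w) (hi.ne ne) (hi.ne hxw) (hi.ne haw)
  obtain ⟨h', hh', e1, e2⟩ := hG.inv h hhG
  refine ⟨x, a, w, y, h, h', g, ⟨⟨hhG, ne, hsep⟩, ⟨hgG, hi.ne ne, hgsep⟩, hh', fun z => congrFun e1 z,
    fun z => congrFun e2 z, hxa1, hw, hy, by rw [hxy]; exact hsa, ?_, by rw [hxy, hxa], fun z => by
      rw [hxa]; exact hlow z⟩⟩
  rw [hxa]
  exact hsc.le.trans (mul_le_mul_of_nonneg_left (hl₁ x w hw) hσ.le)

end QSCoh
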