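import Pool.Agent.Lib.MP_cccab4_an.NM.N1
import Pool.Agent.Lib.MP_cccab4_an.NM.N7
import Pool.Agent.Lib.MP_cccab4_an.A05
import Pool.Agent.Lib.MP_cccab4_an.A07

set_option autoImplicit false

/-!
# N8 (110 lines): compactness

`F j u = g j (f j (h' j u))`. `QM θ (F j)` by `qm_conj` (`MG.mob`; `h' ∈ G` is `BU.mem'`, `g ∈ G` is `(BU.zg).mem`). The triple
`h j (x j), h j (a j), h j (w j)` is `δ`-separated (`BU.zh.sep`), its image under `F j` is `g j (f j (x j)), ..` (`inv2`), `δ`-separated (`BU.zg.sep`).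
So `qm_equi` (A05) gives equicontinuity, `extract` (A07) a subsequence `φ₁` and a continuous `F∞`; `qm_lower` (A05) gives
`ε ≤ dist u v → τ ≤ dist (F j u) (F j v)`, in the limit `τ ≤ dist (F∞ u) (F∞ v)`: injective. Then `isCompact_univ.tendsto_subseq`
(`CompactSpace.tendsto_subseq`) for `g (φ₁ j) (y (φ₁ j))` and again for `h (w)`; uniform convergence passes to subsequences
(`TendstoUniformly` along `φ.tendsto_atTop`), only pointwise convergence is asked in the statement.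
-/

open Metric Set Filter Topology
open scoped NNReal

namespace QSCoh

variable {X : Type*} [MetricSpace X]

theorem comp_lim [CompactSpace X] {G : Set (X → X)} {δ : ℝ} (hG : MG X G δ) {θ : ℝ → ℝ} (hθ : Gauge θ)
    {σ D₀ : ℝ} {s : ℕ → ℝ} {f : ℕ → X → X} (hf : ∀ j, QM θ (f j)) {x a w y : ℕ → X} {h h' g : ℕ → X → X}
    (hB : ∀ j, BU G δ σ D₀ (s j) (f j) (x j) (a j) (w j) (y j) (h j) (h' j) (g j)) :
    ∃ (φ : ℕ → ℕ) (F : X → X) (y' p : X), StrictMono φ ∧ Continuous F ∧ Function.Injective F ∧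
      (∀ u, Tendsto (fun j => g (φ j) (f (φ j) (h' (φ j) u))) atTop (𝓝 (F u))) ∧
      Tendsto (fun j => g (φ j) (y (φ j))) atTop (𝓝 y') ∧
      Tendsto (fun j => h (φ j) (w (φ j))) atTop (𝓝 p) := by
  have hQ : ∀ j, QM θ (fun u => g j (f j (h' j u))) := fun j =>
    qm_conj (hf j) (hG.mob _ (hB j).zg.mem) (hG.mob _ (hB j).mem')
  have hS : ∀ j, ∃ a' b' c', Sep δ a' b' c' ∧
      Sep δ (g j (f j (h' j a'))) (g j (f j (h' j b'))) (g j (f j (h' j c'))) := by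
    intro j
    refine ⟨h j (x j), h j (a j), h j (w j), (hB j).zh.sep, ?_⟩
    rw [(hB j).inv2, (hB j).inv2, (hB j).inv2]
    exact (hB j).zg.sep
  obtain ⟨φ₁, hφ₁, F, hFc, hFu⟩ := extract (fun j u => g j (f j (h' j u))) (by
    intro ε hε
    obtain ⟨τ, hτ, h1⟩ := qm_equi (Z := X) hθ hG.hδ hε
    exact ⟨τ, hτ, fun j => h1 _ (hQ j) (hS j)⟩)
  have hpt : ∀ u, Tendsto (fun j => g (φ₁ j) (f (φ₁ j) (h' (φ₁ j) u))) atTop (𝓝 (F u)) :=
    fun u => hFu.tendsto_at u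
  have hinj : Function.Injective F := by
    intro u v huv
    by_contra hne
    obtain ⟨τ, hτ, h1⟩ := qm_lower (Z := X) hθ hG.hδ (dist_pos.2 hne)
    have h2 : τ ≤ dist (F u) (F v) :=
      ge_of_tendsto' ((hpt u).dist (hpt v)) fun j => h1 _ (hQ (φ₁ j)) (hS (φ₁ j)) u v le_rfl
    rw [huv, dist_self] at h2
    linarith
  obtain ⟨y', φ₂, hφ₂, hy'⟩ := CompactSpace.tendsto_subseq (fun j => g (φ₁ j) (y (φ₁ j)))
  obtain ⟨p, φ₃, hφ₃, hp⟩ := CompactSpace.tendsto_subseq (fun j => h (φ₁ (φ₂ j)) (w (φ₁ (φ₂ j))))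
  refine ⟨fun j => φ₁ (φ₂ (φ₃ j)), F, y', p, hφ₁.comp (hφ₂.comp hφ₃), hFc, hinj, ?_, ?_, ?_⟩
  · intro u
    exact (hpt u).comp (hφ₂.comp hφ₃).tendsto_atTop
  · exact hy'.comp hφ₃.tendsto_atTop
  · exact hp

end QSCoh
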