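import Pool.Agent.Lib.MP_cccab4_an.NM.N2

set_option autoImplicit false

/-!
# N6 (90 lines)

For a point `q` choose a sequence `s q : ℕ → X` with `s q j ≠ p` and `s q j → q`: constant if `q ≠ p`, from `hacc` if `q = p`.
Let `a, b, c, d` be distinct. Eventually `s a j, s b j, s c j, s d j` are distinct (limits distinct: `Tendsto.eventually_ne`),
so `cr (F (s a j)) .. = cr (s a j) ..`; both sides converge by `cr_tendsto` (`F` continuous, injective): equality at `a, b, c, d`.
General `a, b, c, d`: if `a = c` or `b = d` both sides are `0` (denominator); else if `a = b` or `c = d` both are `0` (numerator);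
else if `a = d` and `b = c`: both are `dist a b * dist b a / (dist a b * dist b a) = 1`; `a = d`, `b ≠ c`: `cr a b c a = dist a b * dist c a / (dist a c * dist b a) = 1`,
also for the images; `b = c`, `a ≠ d`: `cr a b b d = dist a b * dist b d / (dist a b * dist b d) = 1`, also for the images.
-/

open Metric Set Filter Topology
open scoped NNReal

namespace QSCoh

variable {X : Type*} [MetricSpace X]

/-- It is enough to have the equality for distinct points. -/
theorem mob_of_dist4 {F : X → X} (hi : Function.Injective F)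
    (h : ∀ a b c d, Dist4 a b c d → cr (F a) (F b) (F c) (F d) = cr a b c d) : Mob F := by
  refine ⟨hi, fun a b c d => ?_⟩
  by_cases hac : a = c
  · subst hac
    simp [cr]
  by_cases hbd : b = d
  · subst hbd
    simp [cr]
  by_cases hab : a = b
  · subst hab
    simp [cr]
  by_cases hcd : c = d
  · subst hcd
    simp [cr]
  have h2 : ∀ x y : X, x ≠ y → 0 < dist x y := fun x y hxy => dist_pos.2 hxy
  by_cases had : a = d
  · subst had
    have e : ∀ x y z : X, x ≠ y → x ≠ z → cr x y z x = 1 := by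
      intro x y z hxy hxz
      have h3 := h2 x y hxy
      have h4 := h2 x z hxz
      unfold cr
      rw [dist_comm z x, dist_comm y x, mul_comm (dist x y) (dist x z)]
      exact div_self (mul_pos h4 h3).ne'
    rw [e a b c hab hac, e (F a) (F b) (F c) (hi.ne hab) (hi.ne hac)]
  by_cases hbc : b = c
  · subst hbc
    have e : ∀ x y z : X, x ≠ y → y ≠ z → cr x y y z = 1 := by
      intro x y z hxy hyz
      unfold cr
      exact div_self (mul_pos (h2 x y hxy) (h2 y z hyz)).ne'
    rw [e a b d hab hbd, e (F a) (F b) (F d) (hi.ne hab) (hi.ne hbd)]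
  exact h a b c d ⟨hab, hac, had, hbc, hbd, hcd⟩

theorem mob_of_avoid {F : X → X} (hc : Continuous F) (hi : Function.Injective F) (p : X)
    (hacc : ∀ ε > 0, ∃ q : X, q ≠ p ∧ dist q p < ε)
    (h : ∀ a b c d, Dist4 a b c d → a ≠ p → b ≠ p → c ≠ p → d ≠ p →
      cr (F a) (F b) (F c) (F d) = cr a b c d) : Mob F := by
  refine mob_of_dist4 hi fun a b c d hd => ?_
  have hs : ∀ q : X, ∃ s : ℕ → X, (∀ j, s j ≠ p) ∧ Tendsto s atTop (𝓝 q) := by
    intro q
    by_cases hq : q = p
    · subst hq
      have h1 : ∀ j : ℕ, ∃ x : X, x ≠ q ∧ dist x q < 1 / ((j : ℝ) + 1) := fun j =>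
        hacc _ (by positivity)
      choose s hs1 hs2 using h1
      refine ⟨s, hs1, ?_⟩
      rw [tendsto_iff_dist_tendsto_zero]
      exact squeeze_zero (fun j => dist_nonneg) (fun j => (hs2 j).le)
        tendsto_one_div_add_atTop_nhds_zero_nat
    · exact ⟨fun _ => q, fun _ => hq, tendsto_const_nhds⟩
  obtain ⟨A, hA, tA⟩ := hs a
  obtain ⟨B, hB, tB⟩ := hs b
  obtain ⟨C, hC, tC⟩ := hs c
  obtain ⟨D, hD, tD⟩ := hs d
  obtain ⟨hab, hac, had, hbc, hbd, hcd⟩ := hd
  have t1 := cr_tendsto tA tB tC tD hac hbd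
  have t2 : Tendsto (fun j => cr (F (A j)) (F (B j)) (F (C j)) (F (D j))) atTop
      (𝓝 (cr (F a) (F b) (F c) (F d))) :=
    cr_tendsto ((hc.tendsto a).comp tA) ((hc.tendsto b).comp tB) ((hc.tendsto c).comp tC)
      ((hc.tendsto d).comp tD) (hi.ne hac) (hi.ne hbd)
  have hn : ∀ (S T : ℕ → X) (s t : X), Tendsto S atTop (𝓝 s) → Tendsto T atTop (𝓝 t) → s ≠ t →
      ∀ᶠ j in atTop, S j ≠ T j := fun S T s t hS hT hst =>
    (hS.prodMk_nhds hT).eventually
      ((isOpen_ne_fun continuous_fst continuous_snd).mem_nhds hst)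
  have he : (fun j => cr (A j) (B j) (C j) (D j)) =ᶠ[atTop]
      (fun j => cr (F (A j)) (F (B j)) (F (C j)) (F (D j))) := by
    filter_upwards [hn _ _ _ _ tA tB hab, hn _ _ _ _ tA tC hac, hn _ _ _ _ tA tD had,
      hn _ _ _ _ tB tC hbc, hn _ _ _ _ tB tD hbd, hn _ _ _ _ tC tD hcd] with
      j h1 h2 h3 h4 h5 h6
    exact (h _ _ _ _ ⟨h1, h2, h3, h4, h5, h6⟩ (hA j) (hB j) (hC j) (hD j)).symm
  exact tendsto_nhds_unique t2 (t1.congr' he)

end QSCoh
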