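import Pool.Agent.Lib.MP_cccab4_an.NM.N5
import Pool.Agent.Lib.MP_cccab4_an.NM.N6
import Pool.Agent.Lib.MP_cccab4_an.NM.N7

set_option autoImplicit false

/-!
# N9 (110 lines): the limit preserves cross-ratios

Let `a₁, .., a₄` be distinct and `≠ p`. By `dom` (N5) there is `M > 0` with `dist (x j) (h' j aᵢ) ≤ M * dist (x j) (a j)` for large `j`
(take the maximum of the four constants). `dist (x j) (a j) < s j` and `M * s j < r j` for large `j` (`hsr`), so the four points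
`h' j aᵢ` are in the ball of radius `r j` about `x j`; `dist (f j (x j)) (y j) < s j ≤ r j`; they are distinct (`h' j` injective);
`cr (h' j a₁) .. = cr a₁ ..` (`Mob`) is `≤ 1/ε j` for large `j` (`ε j → 0+`). So `|cr (f j (h' j a₁)) .. - cr a₁ ..| ≤ ε j`, and
`cr (g j (f j (h' j a₁))) .. = cr (f j (h' j a₁)) ..`. In the limit (`cr_tendsto`, `F` injective) `cr (F a₁) .. = cr a₁ ..`.
Then `mob_of_avoid` (N6).
-/

open Metric Set Filter Topology
open scoped NNReal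

namespace QSCoh

variable {X : Type*} [MetricSpace X]

theorem lim_mob [CompactSpace X] {G : Set (X → X)} {δ : ℝ} (hG : MG X G δ) {θ₀ : ℝ → ℝ} (K : Sg X G G δ θ₀)
    {σ D₀ : ℝ} (hD0 : 0 < D₀) {s r ε : ℕ → ℝ} (hs : Tendsto s atTop (𝓝 0)) (hε0 : ∀ j, 0 < ε j)
    (hε : Tendsto ε atTop (𝓝 0)) (hsr : ∀ M : ℝ, ∀ᶠ j in atTop, M * s j < r j)
    {f : ℕ → X → X} (hsm : ∀ j, SmallAt (f j) (ε j) (r j)) {x a w y : ℕ → X} {h h' g : ℕ → X → X}
    (hB : ∀ j, BU G δ σ D₀ (s j) (f j) (x j) (a j) (w j) (y j) (h j) (h' j) (g j))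
    {F : X → X} (hc : Continuous F) (hi : Function.Injective F)
    (hF : ∀ u, Tendsto (fun j => g j (f j (h' j u))) atTop (𝓝 (F u))) {p : X}
    (hp : Tendsto (fun j => h j (w j)) atTop (𝓝 p)) (hacc : ∀ e > 0, ∃ q : X, q ≠ p ∧ dist q p < e) :
    Mob F := by
  have ht : Tendsto (fun j => dist (x j) (a j)) atTop (𝓝 0) :=
    squeeze_zero (fun _ => dist_nonneg) (fun j => (hB j).small.le) hs
  have hball : ∀ u : X, u ≠ p → ∀ᶠ j in atTop, dist (x j) (h' j u) < r j := by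
    intro u hu
    obtain ⟨M, hM, hev⟩ := dom K hD0 (fun j => (hB j).zh) (fun j => (hB j).far) ht
      (fun j => (hB j).inv1) hp hu
    filter_upwards [hev, hsr M] with j h1 h2
    have h3 := mul_le_mul_of_nonneg_left (hB j).small.le hM.le
    linarith
  refine mob_of_avoid hc hi p hacc fun a₁ b₁ c₁ d₁ hD4 hap hbp hcp hdp => ?_
  have hq : ∀ᶠ j in atTop, cr a₁ b₁ c₁ d₁ ≤ 1 / ε j := by
    have h1 : Tendsto (fun j => cr a₁ b₁ c₁ d₁ * ε j) atTop (𝓝 0) := by
      have := hε.const_mul (cr a₁ b₁ c₁ d₁)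
      rwa [mul_zero] at this
    filter_upwards [(tendsto_order.1 h1).2 1 one_pos] with j h2
    rw [le_div_iff₀ (hε0 j)]
    exact h2.le
  have hb : ∀ᶠ j in atTop,
      |cr (g j (f j (h' j a₁))) (g j (f j (h' j b₁))) (g j (f j (h' j c₁))) (g j (f j (h' j d₁))) -
        cr a₁ b₁ c₁ d₁| ≤ ε j := by
    filter_upwards [hball a₁ hap, hball b₁ hbp, hball c₁ hcp, hball d₁ hdp, hsr 1, hq]
      with j ha hb' hc' hd h1 h2
    have hm := hG.mob (h' j) (hB j).mem'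
    have hg := hG.mob (g j) (hB j).zg.mem
    have hny : dist (f j (x j)) (y j) < r j := by
      have := (hB j).near
      linarith
    have h3 := hsm j (x j) (y j) (hB j).out hny (h' j a₁) (h' j b₁) (h' j c₁) (h' j d₁) ha hb' hc' hd
      ⟨hm.inj.ne hD4.1, hm.inj.ne hD4.2.1, hm.inj.ne hD4.2.2.1, hm.inj.ne hD4.2.2.2.1,
        hm.inj.ne hD4.2.2.2.2.1, hm.inj.ne hD4.2.2.2.2.2⟩ (by rw [hm.eq]; exact h2)
    rw [hm.eq] at h3
    rw [hg.eq]
    exact h3
  have hlim : Tendsto (fun j => cr (g j (f j (h' j a₁))) (g j (f j (h' j b₁)))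
      (g j (f j (h' j c₁))) (g j (f j (h' j d₁)))) atTop (𝓝 (cr a₁ b₁ c₁ d₁)) := by
    rw [tendsto_iff_dist_tendsto_zero]
    refine squeeze_zero' (Eventually.of_forall fun _ => dist_nonneg) ?_ hε
    filter_upwards [hb] with j hj
    rw [Real.dist_eq]
    exact hj
  exact tendsto_nhds_unique
    (cr_tendsto (hF a₁) (hF b₁) (hF c₁) (hF d₁) (hi.ne hD4.2.1) (hi.ne hD4.2.2.2.2.1)) hlim

end QSCoh
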