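import Pool.Agent.Lib.MP_cccab4_an.NM.N3
import Pool.Agent.Lib.MP_cccab4_an.NM.N5
import Pool.Agent.Lib.MP_cccab4_an.NM.N7
import Pool.Agent.Lib.MP_cccab4_an.NM.N8
import Pool.Agent.Lib.MP_cccab4_an.NM.N9

set_option autoImplicit false

/-!
# N10 (100 lines): the theorem for metric spaces

By contradiction: for every `j` there is `f j` with `Continuous`, `QM θ`, `SmallAt (f j) (1/(j+1)) (r j)`, `r j > 0`, not surjective.
Then X has two points; `D₀ = dist u v / 2`. `hole` for `mob_sg hG` gives `σ, τ`. `s j = min (1/(j+1)) (r j / (j+1))`; `blow` (N7) for every `j`.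
`comp_lim` (N8): `φ, F, y', p`. `lim_mob` (N9) for the subsequence: `Mob F`. `mob_surj` (N3): `F` is surjective, `y' = F u`. But by `hole` with
`A = range (f j)`, `x = f (x j)`, .., `y = y j`, and `w = f j (h' j u)`: `τ ≤ dist (g j (y j)) (g j (f j (h' j u)))`, in the limit
`τ ≤ dist y' (F u) = 0`. `hacc`: X is preconnected with two points, so no point is isolated.
-/

open Metric Set Filter Topology
open scoped NNReal

namespace QSCoh

variable {X : Type*} [MetricSpace X]

/-- A preconnected metric space with two points has no isolated point. -/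
theorem accum [PreconnectedSpace X] {u v : X} (huv : u ≠ v) (p : X) :
    ∀ e > 0, ∃ q : X, q ≠ p ∧ dist q p < e := by
  intro e he
  by_contra hcon
  push Not at hcon
  have hop : IsOpen ({p} : Set X) := by
    have : ({p} : Set X) = ball p e := by
      ext q
      rw [mem_singleton_iff, mem_ball]
      constructor
      · rintro rfl; rw [dist_self]; exact he
      · intro hq
        by_contra hne
        exact absurd (hcon q hne) (not_le.2 hq)
    rw [this]; exact isOpen_ball
  have hcl : IsClopen ({p} : Set X) := ⟨isClosed_singleton, hop⟩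
  rcases isClopen_iff.1 hcl with h | h
  · exact (singleton_ne_empty p) h
  · apply huv
    have h1 : u ∈ ({p} : Set X) := by rw [h]; trivial
    have h2 : v ∈ ({p} : Set X) := by rw [h]; trivial
    rw [mem_singleton_iff] at h1 h2
    rw [h1, h2]

theorem near_form [CompactSpace X] [PreconnectedSpace X] (hF : SemigroupForm X) {G : Set (X → X)} {δ : ℝ}
    (hG : MG X G δ) {θ : ℝ → ℝ} (hθ : Gauge θ) :
    ∃ ε > 0, ∀ f : X → X, Continuous f → QM θ f → (∃ r > 0, SmallAt f ε r) → Function.Surjective f := by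
  by_contra hcon
  push Not at hcon
  have hε : ∀ j : ℕ, (0 : ℝ) < 1 / ((j : ℝ) + 1) := fun j => by positivity
  choose f hfc hfq hfr hfs using fun j : ℕ => hcon (1 / ((j : ℝ) + 1)) (hε j)
  choose r hr hsm using hfr
  have K := mob_sg hG
  obtain ⟨σ, hσ, τ, hτ, hhole⟩ := hole K
  -- two points
  obtain ⟨u₀, v₀, huv⟩ : ∃ u v : X, u ≠ v := by
    have h0 := hfs 0
    unfold Function.Surjective at h0
    push Not at h0
    obtain ⟨y, hy⟩ := h0
    exact ⟨f 0 y, y, hy y⟩
  set D₀ : ℝ := dist u₀ v₀ / 2 with hD₀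
  have hD0 : 0 < D₀ := by
    have := dist_pos.2 huv
    rw [hD₀]; linarith
  set s : ℕ → ℝ := fun j => min (1 / ((j : ℝ) + 1)) (r j / ((j : ℝ) + 1)) with hs
  have hs0 : ∀ j, 0 < s j := fun j => by
    have := hr j
    have := hε j
    simp only [hs]
    exact lt_min (hε j) (by positivity)
  have hb : ∀ j, ∃ (x a w y : X) (h h' g : X → X), BU G δ σ D₀ (s j) (f j) x a w y h h' g := fun j =>
    blow hG hD0 ⟨u₀, v₀, by rw [hD₀]; linarith⟩ hσ (hfc j) (hfq j).inj (hfs j) (hs0 j)
  choose x a w y h h' g hB using hb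
  obtain ⟨φ, F, y', p, hφ, hFc, hFi, hFl, hyl, hpl⟩ := comp_lim hG hθ hfq hB
  have hφt : Tendsto φ atTop atTop := hφ.tendsto_atTop
  have hone : Tendsto (fun j : ℕ => (1 : ℝ) / ((j : ℝ) + 1)) atTop (𝓝 0) :=
    tendsto_one_div_add_atTop_nhds_zero_nat
  have hslim : Tendsto s atTop (𝓝 0) :=
    squeeze_zero (fun j => (hs0 j).le) (fun j => min_le_left _ _) hone
  have hsr : ∀ M : ℝ, ∀ᶠ j in atTop, M * s j < r j := by
    intro M
    obtain ⟨N, hN⟩ := exists_nat_gt (max M 0)
    filter_upwards [eventually_ge_atTop N] with j hj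
    have hj1 : (0 : ℝ) < (j : ℝ) + 1 := by positivity
    have hjN : (N : ℝ) ≤ j := by exact_mod_cast hj
    have h1 : s j * ((j : ℝ) + 1) ≤ r j := by
      have : s j ≤ r j / ((j : ℝ) + 1) := min_le_right _ _
      rwa [le_div_iff₀ hj1] at this
    have h2 : M * s j ≤ max M 0 * s j := mul_le_mul_of_nonneg_right (le_max_left _ _) (hs0 j).le
    have h3 : max M 0 * s j < ((j : ℝ) + 1) * s j := by
      apply mul_lt_mul_of_pos_right _ (hs0 j)
      linarith
    linarith
  have hMob : Mob F :=
    lim_mob hG K (s := fun j => s (φ j)) (r := fun j => r (φ j)) (ε := fun j => 1 / (((φ j : ℕ) : ℝ) + 1))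
      hD0 (hslim.comp hφt) (fun j => hε (φ j)) (hone.comp hφt)
      (fun M => hφt.eventually (hsr M)) (f := fun j => f (φ j)) (fun j => hsm (φ j))
      (fun j => hB (φ j)) hFc hFi hFl hpl (accum huv p)
  obtain ⟨u, hu⟩ := mob_surj hF hG hFc hMob y'
  have hge : ∀ j, τ ≤ dist (g j (y j)) (g j (f j (h' j u))) := by
    intro j
    refine hhole (range (f j)) (f j (x j)) (f j (a j)) (f j (w j)) (y j) (g j) (hB j).zg (hB j).sc
      (hB j).eqd ?_ _ (mem_range_self _)
    rintro _ ⟨v, rfl⟩
    exact (hB j).low v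
  have hlim : Tendsto (fun j => dist (g (φ j) (y (φ j))) (g (φ j) (f (φ j) (h' (φ j) u)))) atTop
      (𝓝 (dist y' (F u))) := hyl.dist (hFl u)
  have := ge_of_tendsto' hlim (fun j => hge (φ j))
  rw [hu, dist_self] at this
  linarith

end QSCoh
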