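import Pool.Agent.Lib.MP_cccab4_an.NM.N6
import Pool.Agent.Lib.MP_cccab4_an.NM.N10
import Pool.Agent.Lib.MP_cccab4_an.G08

set_option autoImplicit false

/-!
# N11 (100 lines): boundaries of hyperbolic groups

`precon_ql`: the Loewner space `Z` is rectifiably connected: any two points are joined by the image of an interval under a Lipschitz map, so
`Z` is preconnected (`isPreconnected_of_forall_pair` or path connectedness), and so is `X` (homeomorphic image, `e.surjective`, `e.continuous`).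
`group_mg`: as in `group_semigroup` (G08): `id`, `comp`, `inv` by `act_one`, `act_mul`; `act_cont`, `act_co`; `Mob (act g)` from
`mob_of_dist4` (N6), injectivity of `act g` (`(hq g).inj` of `act_qm`), and `hM` (coerced to `ℝ` by `P02_coe_crn`).
-/

open Metric Set Filter Topology
open scoped NNReal

namespace QSCoh

universe u

theorem precon_ql {X : Type u} [MetricSpace X] (h : QSLoewner X) : PreconnectedSpace X := by
  obtain ⟨Z, _, _, _, Q, e, he, hL⟩ := h
  have hZ : PreconnectedSpace Z := by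
    refine ⟨isPreconnected_of_forall_pair ?_⟩
    intro x _ y _
    obtain ⟨γ, L, hγ, h0, hx, hy⟩ := hL.rectConn x y
    refine ⟨γ '' Icc 0 L, subset_univ _, ⟨0, left_mem_Icc.2 h0, hx⟩, ⟨L, right_mem_Icc.2 h0, hy⟩, ?_⟩
    exact isPreconnected_Icc.image γ hγ.continuous.continuousOn
  exact e.surjective.denseRange.preconnectedSpace e.continuous

theorem group_mg {Γ : Type u} [Group Γ] {T : Set Γ} (hT : IsHypGroup T)
    [MetricSpace (Bdry T)] (hv : IsVisual T)
    (hM : ∀ (g : Γ) (a b c d : Bdry T), a ≠ b → a ≠ c → a ≠ d → b ≠ c → b ≠ d → c ≠ d →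
      crn (act hT.gen g a) (act hT.gen g b) (act hT.gen g c) (act hT.gen g d) = crn a b c d) :
    ∃ δ : ℝ, MG (Bdry T) (range (act hT.gen)) δ := by
  obtain ⟨κ, hκ, hco⟩ := act_co hT hv
  obtain ⟨θ₁, hθ₁, hqa⟩ := act_qm hT hv
  refine ⟨κ, hκ, ⟨1, funext fun ξ => act_one hT.gen ξ⟩, ?_, ?_, ?_, ?_, ?_⟩
  · rintro _ ⟨g, rfl⟩ _ ⟨h, rfl⟩
    exact ⟨g * h, funext fun ξ => act_mul hT.gen g h ξ⟩
  · rintro _ ⟨g, rfl⟩
    refine ⟨act hT.gen g⁻¹, ⟨g⁻¹, rfl⟩, ?_, ?_⟩
    · funext ξ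
      show act hT.gen g (act hT.gen g⁻¹ ξ) = ξ
      rw [← act_mul, mul_inv_cancel, act_one]
    · funext ξ
      show act hT.gen g⁻¹ (act hT.gen g ξ) = ξ
      rw [← act_mul, inv_mul_cancel, act_one]
  · rintro _ ⟨g, rfl⟩
    exact act_cont hT hv g
  · rintro _ ⟨g, rfl⟩
    refine mob_of_dist4 (hqa g).inj ?_
    rintro a b c d ⟨h1, h2, h3, h4, h5, h6⟩
    have h := congrArg ((↑) : ℝ≥0 → ℝ) (hM g a b c d h1 h2 h3 h4 h5 h6)
    rwa [P02_coe_crn, P02_coe_crn] at h
  · intro x y z hxy hxz hyz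
    obtain ⟨g, h1, h2, h3⟩ := hco x y z hxy hxz hyz
    exact ⟨act hT.gen g, ⟨g, rfl⟩, h1, h2, h3⟩

end QSCoh
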