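import Pool.Agent.Lib.MP_cccab4_an.NM.N6
import Pool.Agent.Lib.MP_cccab4_an.P02
import Pool.Agent.Lib.MP_cccab4_an.G04
import Pool.Agent.Lib.MP_cccab4_an.G05
import Pool.Agent.Lib.MP_cccab4_an.G06

set_option autoImplicit false

/-!
# N12: the boundary of a hyperbolic group with another metric, for which the group acts by Möbius maps
-/

open Metric Set Filter Topology
open scoped NNReal

namespace QSCoh

universe u

theorem group_mg' {Γ : Type u} [Group Γ] {T : Set Γ} (hT : IsHypGroup T)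
    [MetricSpace (Bdry T)] (hv : IsVisual T) {X : Type u} [MetricSpace X] (e : X ≃ₜ Bdry T)
    (hM : ∀ (g : Γ) (a b c d : X), a ≠ b → a ≠ c → a ≠ d → b ≠ c → b ≠ d → c ≠ d →
      crn (e.symm (act hT.gen g (e a))) (e.symm (act hT.gen g (e b))) (e.symm (act hT.gen g (e c)))
        (e.symm (act hT.gen g (e d))) = crn a b c d) :
    ∃ δ : ℝ, MG X (range fun (g : Γ) (x : X) => e.symm (act hT.gen g (e x))) δ := by
  have hcb := bdry_compact hT hv
  have : CompactSpace X := e.symm.compactSpace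
  obtain ⟨κ, hκ, hco⟩ := act_co hT hv
  obtain ⟨θ₁, hθ₁, hqa⟩ := act_qm hT hv
  have huc : UniformContinuous e := CompactSpace.uniformContinuous_of_continuous e.continuous
  rw [Metric.uniformContinuous_iff] at huc
  obtain ⟨δ, hδ, hd⟩ := huc κ hκ
  have hsep : ∀ a b : Bdry T, κ ≤ dist a b → δ ≤ dist (e.symm a) (e.symm b) := by
    intro a b hab
    by_contra hlt
    push Not at hlt
    have := hd hlt
    rw [e.apply_symm_apply, e.apply_symm_apply] at this
    linarith
  refine ⟨δ, hδ, ?_, ?_, ?_, ?_, ?_, ?_⟩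
  · refine ⟨1, ?_⟩
    funext x
    show e.symm (act hT.gen 1 (e x)) = x
    rw [act_one, e.symm_apply_apply]
  · rintro _ ⟨g, rfl⟩ _ ⟨h, rfl⟩
    refine ⟨g * h, ?_⟩
    funext x
    show e.symm (act hT.gen (g * h) (e x)) = e.symm (act hT.gen g (e (e.symm (act hT.gen h (e x)))))
    rw [e.apply_symm_apply, act_mul]
  · rintro _ ⟨g, rfl⟩
    refine ⟨_, ⟨g⁻¹, rfl⟩, ?_, ?_⟩
    · funext x
      show e.symm (act hT.gen g (e (e.symm (act hT.gen g⁻¹ (e x))))) = x
      rw [e.apply_symm_apply, ← act_mul, mul_inv_cancel, act_one, e.symm_apply_apply]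
    · funext x
      show e.symm (act hT.gen g⁻¹ (e (e.symm (act hT.gen g (e x))))) = x
      rw [e.apply_symm_apply, ← act_mul, inv_mul_cancel, act_one, e.symm_apply_apply]
  · rintro _ ⟨g, rfl⟩
    exact e.symm.continuous.comp ((act_cont hT hv g).comp e.continuous)
  · rintro _ ⟨g, rfl⟩
    refine mob_of_dist4 ?_ ?_
    · intro x y hxy
      exact e.injective ((hqa g).inj (e.symm.injective hxy))
    · rintro a b c d ⟨h1, h2, h3, h4, h5, h6⟩
      have := hM g a b c d h1 h2 h3 h4 h5 h6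
      rw [← P02_coe_crn, ← P02_coe_crn]
      exact congrArg _ this
  · intro x y z hxy hxz hyz
    obtain ⟨g, h1, h2, h3⟩ := hco (e x) (e y) (e z) (e.injective.ne hxy) (e.injective.ne hxz)
      (e.injective.ne hyz)
    exact ⟨_, ⟨g, rfl⟩, hsep _ _ h1, hsep _ _ h2, hsep _ _ h3⟩

end QSCoh
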