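import Pool.Agent.Lib.MP_cccab4_an.NM.H2
import Pool.Agent.Lib.MP_cccab4_an.NM.N11
import Pool.Agent.Lib.MP_cccab4_an.NM.N12

set_option autoImplicit false

/-!
# H3: the theorem on holes for boundaries of hyperbolic groups
-/

open Metric Set Filter Topology
open scoped NNReal

namespace QSCoh

universe u

/-- `Dis` in terms of `crn`. -/
theorem dis_crn {X : Type u} [MetricSpace X] {f : X → X} {ε : ℝ} {B : Set X} (h : Dis f ε B) :
    ∃ a ∈ B, ∃ b ∈ B, ∃ c ∈ B, ∃ d ∈ B, a ≠ b ∧ a ≠ c ∧ a ≠ d ∧ b ≠ c ∧ b ≠ d ∧ c ≠ d ∧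
      (crn a b c d : ℝ) ≤ 1 / ε ∧ ε < |(crn (f a) (f b) (f c) (f d) : ℝ) - crn a b c d| := by
  obtain ⟨a, b, c, d, ha, hb, hc, hd, ⟨h1, h2, h3, h4, h5, h6⟩, h7, h8⟩ := h
  refine ⟨a, ha, b, hb, c, hc, d, hd, h1, h2, h3, h4, h5, h6, ?_, ?_⟩
  · rw [P02_coe_crn]
    exact h7
  · rw [P02_coe_crn, P02_coe_crn]
    exact h8

theorem Dis.mono {X : Type u} [MetricSpace X] {f : X → X} {ε : ℝ} {B C : Set X} (h : Dis f ε B)
    (hBC : B ⊆ C) : Dis f ε C := by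
  obtain ⟨a, b, c, d, ha, hb, hc, hd, h⟩ := h
  exact ⟨a, b, c, d, hBC ha, hBC hb, hBC hc, hBC hd, h⟩

theorem group_holes {Γ : Type u} [Group Γ] {T : Set Γ} (hT : IsHypGroup T)
    [MetricSpace (Bdry T)] (hv : IsVisual T) {X : Type u} [MetricSpace X] (e : X ≃ₜ Bdry T)
    (hL : QSLoewner X)
    (hM : ∀ (g : Γ) (a b c d : X), a ≠ b → a ≠ c → a ≠ d → b ≠ c → b ≠ d → c ≠ d →
      crn (e.symm (act hT.gen g (e a))) (e.symm (act hT.gen g (e b))) (e.symm (act hT.gen g (e c)))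
        (e.symm (act hT.gen g (e d))) = crn a b c d)
    (θ : ℝ≥0 ≃ₜ ℝ≥0) :
    ∃ ε : ℝ, 0 < ε ∧ ∀ f : X → X, IsQSEmb f → IsQMob θ f →
      (∀ x a w y : X, y ∉ range f → (∀ u, dist (f x) y ≤ dist (f u) y) →
        dist (f x) (f a) = dist (f x) y → dist (f x) y ≤ ε * dist (f x) (f w) →
        Dis f ε {u | ε * (dist x u * dist a w) ≤ dist x a * dist u w}) ∧
      (∀ z : X, f z ∉ interior (range f) → ∀ r : ℝ, 0 < r → Dis f ε (ball z r)) := by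
  have := bdry_compact hT hv
  have : CompactSpace X := e.symm.compactSpace
  have := precon_ql hL
  obtain ⟨δ, hG⟩ := group_mg' hT hv e hM
  obtain ⟨θ', hθ', hq⟩ := qmob_gauge (X := X) (Y := X) θ
  obtain ⟨ε, hε, h⟩ := hole_form (qs_loewner_form hL) hG hθ'
  refine ⟨ε, hε, fun f hf hm => ?_⟩
  obtain ⟨hc, hi, -⟩ := qs_gauge hf
  have key := h f hc (hq f hi hm)
  refine ⟨fun x a w y hy hlow hfa hfw => key x a w y hy (fun u => ?_) hfa hfw, fun z hz r hr => ?_⟩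
  · rw [dist_comm y]
    exact hlow u
  · obtain ⟨x, a, w, y, hy, hlow, hfa, hfw, hsub⟩ := front_loc hc hi hz hε hr
    exact (key x a w y hy hlow hfa hfw).mono hsub

end QSCoh
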