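import Pool.Agent.Lib.MP_cccab4_an.NM.N10
import Pool.Agent.Lib.MP_cccab4_an.NM.N11
import Pool.Agent.Lib.MP_cccab4_an.NM.N12

set_option autoImplicit false

open Metric Set Filter Topology
open scoped NNReal

namespace QSCoh

universe u

theorem group_near {Γ : Type u} [Group Γ] {T : Set Γ} (hT : IsHypGroup T)
    [MetricSpace (Bdry T)] (hv : IsVisual T) {X : Type u} [MetricSpace X] (e : X ≃ₜ Bdry T)
    (hL : QSLoewner X)
    (hM : ∀ (g : Γ) (a b c d : X), a ≠ b → a ≠ c → a ≠ d → b ≠ c → b ≠ d → c ≠ d →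
      crn (e.symm (act hT.gen g (e a))) (e.symm (act hT.gen g (e b))) (e.symm (act hT.gen g (e c)))
        (e.symm (act hT.gen g (e d))) = crn a b c d)
    (θ : ℝ≥0 ≃ₜ ℝ≥0) :
    ∃ ε : ℝ, 0 < ε ∧ ∀ f : X → X, IsQSEmb f → IsQMob θ f →
      (∃ r : ℝ, 0 < r ∧ ∀ x y : X, y ∉ range f → dist (f x) y < r →
        ∀ a b c d : X, dist x a < r → dist x b < r → dist x c < r → dist x d < r →
          a ≠ b → a ≠ c → a ≠ d → b ≠ c → b ≠ d → c ≠ d → (crn a b c d : ℝ) ≤ 1 / ε →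
          |(crn (f a) (f b) (f c) (f d) : ℝ) - crn a b c d| ≤ ε) →
      Function.Surjective f := by
  have := bdry_compact hT hv
  have : CompactSpace X := e.symm.compactSpace
  have := precon_ql hL
  obtain ⟨δ, hG⟩ := group_mg' hT hv e hM
  obtain ⟨θ', hθ', hq⟩ := qmob_gauge (X := X) (Y := X) θ
  obtain ⟨ε, hε, h⟩ := near_form (qs_loewner_form hL) hG hθ'
  refine ⟨ε, hε, fun f hf hm ⟨r, hr, hsm⟩ => ?_⟩
  obtain ⟨hc, hi, -⟩ := qs_gauge hf
  refine h f hc (hq f hi hm) ⟨r, hr, ?_⟩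
  intro x y hy hxy a b c d ha hb hc' hd ⟨h1, h2, h3, h4, h5, h6⟩ hcr
  have := hsm x y hy hxy a b c d ha hb hc' hd h1 h2 h3 h4 h5 h6 (by rw [P02_coe_crn]; exact hcr)
  rwa [P02_coe_crn, P02_coe_crn] at this

end QSCoh
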