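import Pool.Agent.Lib.MP_cccab4_an.NM.Defs
import Pool.Agent.Lib.MP_cccab4_an.A03
import Pool.Agent.Lib.MP_cccab4_an.A04

set_option autoImplicit false

/-!
# N1 (60 lines)

`gaugeM`: `t ↦ max t 0` is monotone, nonnegative, tends to `0` at `0+`.
`mob_qm`: `cr (g a) .. = cr a .. ≤ max (cr a ..) 0`.
`mob_sg`: fields of `Sg` (see `Defs`): `sub`, `comp`, `compG`, `inv`, `co`, `cont` from `MG`; `qm` from `mob_qm`; `qs` from `qm_qs`
(A04; X compact); `rig`: `g j ∘ f ∘ h j ∈ G`, so `QM` with the gauge by `mob_qm`, and `qm_limit` (A03) with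
`hlim.tendsto_at`.
`qm_conj`: `cr (g (f (h a))) .. = cr (f (h a)) .. ≤ θ (cr (h a) ..) = θ (cr a ..)` (`a ≠ c` gives `h a ≠ h c`); injectivity by composition.
-/

open Metric Set Filter Topology
open scoped NNReal

namespace QSCoh

variable {X : Type*} [MetricSpace X]

theorem gaugeM : Gauge (fun t : ℝ => max t 0) := by
  refine gauge_of (fun a b hab => max_le_max hab le_rfl) (fun t => le_max_right _ _) fun ε hε => ?_
  refine ⟨ε / 2, half_pos hε, ?_⟩
  show max (ε / 2) 0 < ε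
  rw [max_eq_left (half_pos hε).le]
  exact half_lt_self hε

theorem mob_qm {g : X → X} (hg : Mob g) : QM (fun t : ℝ => max t 0) g := by
  refine ⟨hg.inj, fun a b c d _ _ => ?_⟩
  rw [hg.eq]
  exact le_max_left _ _

theorem mob_sg [CompactSpace X] {G : Set (X → X)} {δ : ℝ} (h : MG X G δ) :
    Sg X G G δ (fun t : ℝ => max t 0) := by
  refine ⟨h.hδ, gaugeM, h.id_mem, Subset.rfl, h.comp, h.cont, ?_, ?_, h.inv, h.comp, h.co, ?_⟩
  · intro f hf
    exact qm_qs gaugeM (h.cont f hf) (mob_qm (h.mob f hf))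
  · intro f hf
    exact ⟨_, gaugeM, mob_qm (h.mob f hf)⟩
  · intro f hf g k hg hk φ hlim hb
    exact qm_limit (f := fun j => g j ∘ f ∘ k j)
      (fun j => mob_qm (h.mob _ (h.comp _ (hg j) _ (h.comp _ hf _ (hk j)))))
      (fun x => hlim.tendsto_at x) hb.injective

theorem qm_conj {θ : ℝ → ℝ} {f g h : X → X} (hf : QM θ f) (hg : Mob g) (hh : Mob h) :
    QM θ (fun u => g (f (h u))) := by
  refine ⟨hg.inj.comp (hf.inj.comp hh.inj), fun a b c d hac hbd => ?_⟩
  show cr (g (f (h a))) (g (f (h b))) (g (f (h c))) (g (f (h d))) ≤ _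
  rw [hg.eq]
  refine (hf.le _ _ _ _ (hh.inj.ne hac) (hh.inj.ne hbd)).trans ?_
  rw [hh.eq]

end QSCoh
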