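import Pool.Agent.Lib.MP_cccab4_an.NM.Defs

set_option autoImplicit false

/-!
# N2 (60 lines)

`cr_tendsto`: quotient of continuous functions, the denominators tend to `dist (φ a) (φ c) * dist (φ b) (φ d) ≠ 0`.
`mob_limit`: for `a = c` or `b = d` both cross-ratios are `0` (denominator `0`); otherwise `cr_tendsto` and
`tendsto_nhds_unique` (the left sides are constant).
-/

open Metric Set Filter Topology
open scoped NNReal

namespace QSCoh

variable {X : Type*} [MetricSpace X]

theorem cr_tendsto {A B C D : ℕ → X} {a b c d : X} (hA : Tendsto A atTop (𝓝 a)) (hB : Tendsto B atTop (𝓝 b))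
    (hC : Tendsto C atTop (𝓝 c)) (hD : Tendsto D atTop (𝓝 d)) (hac : a ≠ c) (hbd : b ≠ d) :
    Tendsto (fun j => cr (A j) (B j) (C j) (D j)) atTop (𝓝 (cr a b c d)) := by
  unfold cr
  refine Tendsto.div ((hA.dist hB).mul (hC.dist hD)) ((hA.dist hC).mul (hB.dist hD)) ?_
  exact mul_ne_zero (dist_ne_zero.2 hac) (dist_ne_zero.2 hbd)

theorem mob_limit {F : ℕ → X → X} {φ : X → X} (h : ∀ j, Mob (F j))
    (hl : ∀ x, Tendsto (fun j => F j x) atTop (𝓝 (φ x))) (hi : Function.Injective φ) : Mob φ := by
  refine ⟨hi, fun a b c d => ?_⟩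
  by_cases hac : a = c
  · subst hac
    simp [cr]
  by_cases hbd : b = d
  · subst hbd
    simp [cr]
  have h1 := cr_tendsto (hl a) (hl b) (hl c) (hl d) (fun h => hac (hi h)) (fun h => hbd (hi h))
  have h2 : (fun j => cr (F j a) (F j b) (F j c) (F j d)) = fun _ => cr a b c d :=
    funext fun j => (h j).eq a b c d
  rw [h2] at h1
  exact tendsto_nhds_unique h1 tendsto_const_nhds

end QSCoh
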