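import Pool.Agent.Lib.MP_cccab4_an.NM.N1
import Pool.Agent.Lib.MP_cccab4_an.NM.N2
import Pool.Agent.Lib.MP_cccab4_an.P02
import Pool.Agent.Lib.MP_cccab4_an.P04

set_option autoImplicit false

/-!
# N3 (60 lines)

Apply `hF : SemigroupForm X` to `S = {f | Continuous f ∧ Mob f}`, `G`, `δ` and `θ = Homeomorph.refl ℝ≥0`: elements of `S` are
`IsQSEmb` by `qsemb_of_qm gaugeM` (P04); `S` is closed under composition, contains `G`; `co` is `MG.co` (unfold `Sep`);
for a homeomorphism `φ`, uniform limit of `g j ∘ f ∘ h j ∈ S`: `Mob φ` by `mob_limit` (`hlim.tendsto_at`), so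
`crn (φ a) .. = crn a ..` (coerce to `ℝ` with `P02_coe_crn`).
-/

open Metric Set Filter Topology
open scoped NNReal

namespace QSCoh

variable {X : Type*} [MetricSpace X]

theorem mob_surj [CompactSpace X] (hF : SemigroupForm X) {G : Set (X → X)} {δ : ℝ} (hG : MG X G δ)
    {f : X → X} (hc : Continuous f) (hf : Mob f) : Function.Surjective f := by
  refine hF {f | Continuous f ∧ Mob f} G δ (Homeomorph.refl ℝ≥0) hG.hδ ?_ ?_ ?_ hG.id_mem hG.comp
    hG.inv ?_ ?_ f ⟨hc, hf⟩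
  · rintro g ⟨h1, h2⟩
    exact qsemb_of_qm gaugeM h1 (mob_qm h2)
  · rintro a ⟨h1, h2⟩ b ⟨h3, h4⟩
    refine ⟨h1.comp h3, h2.inj.comp h4.inj, fun p q r s => ?_⟩
    exact (h2.eq (b p) (b q) (b r) (b s)).trans (h4.eq p q r s)
  · intro g hg
    exact ⟨hG.cont g hg, hG.mob g hg⟩
  · intro x y z hxy hxz hyz
    obtain ⟨h, hh, hs⟩ := hG.co x y z hxy hxz hyz
    exact ⟨h, hh, hs⟩
  · rintro a ⟨h1, h2⟩ g h hg hh φ hlim
    have hm : Mob (φ : X → X) := by
      refine mob_limit (F := fun j => g j ∘ a ∘ h j) (fun j => ⟨?_, fun p q r s => ?_⟩)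
        (fun x => hlim.tendsto_at x) φ.injective
      · exact (hG.mob _ (hg j)).inj.comp (h2.inj.comp (hG.mob _ (hh j)).inj)
      · exact ((hG.mob _ (hg j)).eq _ _ _ _).trans
          ((h2.eq _ _ _ _).trans ((hG.mob _ (hh j)).eq p q r s))
    intro p q r s _ _ _ _ _ _
    apply le_of_eq
    show crn (φ p) (φ q) (φ r) (φ s) = crn p q r s
    apply NNReal.coe_injective
    rw [P02_coe_crn, P02_coe_crn]
    exact hm.eq p q r s

end QSCoh
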