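import Pool.Agent.Lib.MP_cccab4_an.NM.Defs

set_option autoImplicit false

/-!
# N4 (90 lines)

`A = range f` is compact. `y₀ ∉ A` (not surjective), `r₀ = infDist y₀ A > 0` (`IsClosed.notMem_iff_infDist_pos`). `p = f y₀`, so there are two
points; `u ≠ v` (take `u = y₀`, `v = f y₀`), `m = dist (f u) (f v) > 0`. Let `s = min (s₀/2) (min r₀ (m/2))`.
The function `z ↦ infDist z A` is continuous, `0` at `f u`, `≥ s` at `y₀`; X is preconnected, so
(`mem_range_of_exists_le_of_exists_ge`) there is `y` with `infDist y A = s`; so `y ∉ A`. By compactness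
(`IsCompact.exists_infDist_eq_dist`) there is `x` with `dist y (f x) = s`, and `s ≤ dist y (f w)` for all `w` (`infDist_le_dist_of_mem`).
The function `w ↦ dist (f x) (f w)` is continuous, `0` at `x`, and at `u` or at `v` it is `≥ m/2 ≥ s` (triangle inequality); so
there is `a` with `dist (f x) (f a) = s`.
-/

open Metric Set Filter Topology
open scoped NNReal

namespace QSCoh

variable {X : Type*} [MetricSpace X]

theorem front [CompactSpace X] [PreconnectedSpace X] {f : X → X} (hc : Continuous f)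
    (hi : Function.Injective f) (hs : ¬ Function.Surjective f) {s₀ : ℝ} (h0 : 0 < s₀) :
    ∃ (x a y : X) (s : ℝ), 0 < s ∧ s < s₀ ∧ y ∉ range f ∧ (∀ w, s ≤ dist y (f w)) ∧ dist (f x) y = s ∧
      dist (f x) (f a) = s := by
  obtain ⟨y₀, hy₀⟩ : ∃ y₀, ∀ x, f x ≠ y₀ := by
    by_contra h
    push Not at h
    exact hs h
  have hcomp : IsCompact (range f) := isCompact_range hc
  have hne : (range f).Nonempty := ⟨f y₀, y₀, rfl⟩
  have hr0 : 0 < infDist y₀ (range f) := by
    refine (hcomp.isClosed.notMem_iff_infDist_pos hne).mp ?_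
    rintro ⟨x, hx⟩
    exact hy₀ x hx
  have hm : 0 < dist (f y₀) (f (f y₀)) := by
    rw [dist_pos]
    intro h
    exact hy₀ y₀ (hi h).symm
  obtain ⟨s, hsdef⟩ : ∃ s, s = min (s₀ / 2) (min (infDist y₀ (range f)) (dist (f y₀) (f (f y₀)) / 2)) := ⟨_, rfl⟩
  have hs0 : 0 < s := by
    rw [hsdef]
    exact lt_min (by linarith) (lt_min hr0 (by linarith))
  have hs1 : s ≤ s₀ / 2 := by
    rw [hsdef]
    exact min_le_left _ _
  have hs2 : s ≤ infDist y₀ (range f) := by
    rw [hsdef]
    exact (min_le_right _ _).trans (min_le_left _ _)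
  have hs3 : s ≤ dist (f y₀) (f (f y₀)) / 2 := by
    rw [hsdef]
    exact (min_le_right _ _).trans (min_le_right _ _)
  obtain ⟨y, hy⟩ : s ∈ range fun z => infDist z (range f) := by
    refine mem_range_of_exists_le_of_exists_ge (continuous_infDist_pt (range f)) ⟨f y₀, ?_⟩ ⟨y₀, hs2⟩
    rw [infDist_zero_of_mem (mem_range_self y₀)]
    exact hs0.le
  have hy' : infDist y (range f) = s := hy
  have hle : ∀ w, s ≤ dist y (f w) := by
    intro w
    rw [← hy']
    exact infDist_le_dist_of_mem ⟨w, rfl⟩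
  have hyr : y ∉ range f := by
    rintro ⟨w, hw⟩
    have h1 := hle w
    rw [hw, dist_self] at h1
    linarith
  obtain ⟨z, ⟨x, hx⟩, hz⟩ := hcomp.exists_infDist_eq_dist hne y
  have hxy : dist (f x) y = s := by
    rw [hx, dist_comm, ← hz, hy']
  obtain ⟨a, ha⟩ : s ∈ range fun w => dist (f x) (f w) := by
    refine mem_range_of_exists_le_of_exists_ge (continuous_const.dist hc) ⟨x, ?_⟩ ?_
    · rw [dist_self]
      exact hs0.le
    · by_contra hcon
      push Not at hcon
      have h1 := hcon y₀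
      have h2 := hcon (f y₀)
      have h3 := dist_triangle (f y₀) (f x) (f (f y₀))
      rw [dist_comm (f y₀) (f x)] at h3
      linarith
  exact ⟨x, a, y, s, hs0, by linarith, hyr, hle, hxy, ha⟩

end QSCoh
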